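import Mathlib
import Pool.Agent.Lib.helper33.Loeb

set_option autoImplicit false
open Filter Topology MeasureTheory ProbabilityTheory Set
open scoped ENNReal NNReal

namespace Pool.Agent.Results.MP_5090e2_pr.LimitProcess

/-- The sigma-algebra on path space generated by the coordinates at times `r ≤ s`. -/
abbrev past (E : Type) [mE : MeasurableSpace E] (s : ℝ≥0) : MeasurableSpace (ℝ≥0 → E) :=
  ⨆ r ≤ s, MeasurableSpace.comap (fun ω => ω r) mE

/-- A time-homogeneous continuous-time Markov process on the measurable space `E` with a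
stationary distribution `π`; `P x` is the law of the path started at `x`. -/
structure MarkovProcess (E : Type) [MeasurableSpace E] where
  P : Kernel E (ℝ≥0 → E)
  prob : ∀ x, IsProbabilityMeasure (P x)
  start : ∀ x, (P x).map (fun ω => ω 0) = Measure.dirac x
  markov : ∀ x (s t : ℝ≥0) (A : Set (ℝ≥0 → E)) (C : Set E), MeasurableSet[past E s] A →
    MeasurableSet C → P x (A ∩ {ω | ω (s + t) ∈ C}) = ∫⁻ ω in A, P (ω s) {η | η t ∈ C} ∂(P x)
  π : Measure E
  prob_π : IsProbabilityMeasure π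
  stationary : ∀ (t : ℝ≥0) (C : Set E), MeasurableSet C → ∫⁻ x, P x {ω | ω t ∈ C} ∂π = π C

/-- `d_x(t)`, the total variation distance from stationarity. -/
noncomputable def MarkovProcess.d {E : Type} [MeasurableSpace E] (X : MarkovProcess E) (x : E)
    (t : ℝ≥0) : ℝ :=
  ⨆ C : {C : Set E // MeasurableSet C}, |(X.P x).real {ω | ω t ∈ C.1} - X.π.real C.1|

/-- Nonincreasing functions `[0,∞) → [0,1]`. -/
def M : Type := {f : ℝ≥0 → ℝ // Antitone f ∧ ∀ t, f t ∈ Icc (0 : ℝ) 1}

/-- Pointwise convergence at the continuity points `t > 0` of the limit. -/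
def Conv (u : ℕ → M) (f : M) : Prop :=
  ∀ t, 0 < t → ContinuousAt f.1 t → Tendsto (fun n => (u n).1 t) atTop (𝓝 (f.1 t))

instance : TopologicalSpace M where
  IsOpen U := ∀ f ∈ U, ∀ u, Conv u f → ∀ᶠ n in atTop, u n ∈ U
  isOpen_univ := fun _ _ _ _ => Eventually.of_forall fun _ => trivial
  isOpen_inter := fun _ _ hs ht f hf u hu => (hs f hf.1 u hu).and (ht f hf.2 u hu)
  isOpen_sUnion := fun _ h f ⟨t, ht, hf⟩ u hu => (h t ht f hf u hu).mono fun _ hn => ⟨t, ht, hn⟩

instance : MeasurableSpace M := borel M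
instance : BorelSpace M := ⟨rfl⟩

section topology

def Lo (q : ℚ≥0) (a : ℚ) : Set M := {f | ∃ r : ℚ≥0, r < q ∧ f.1 r < a}
def Hi (q : ℚ≥0) (a : ℚ) : Set M := {f | ∃ r : ℚ≥0, q < r ∧ (a : ℝ) < f.1 r}
def B : Set (Set M) := range (fun p : ℚ≥0 × ℚ => Lo p.1 p.2) ∪ range fun p : ℚ≥0 × ℚ => Hi p.1 p.2

lemma rat_btwn {a b : ℝ≥0} (h : a < b) : ∃ r : ℚ≥0, a < r ∧ (r : ℝ≥0) < b := by
  obtain ⟨q, h1, h2⟩ := exists_rat_btwn (NNReal.coe_lt_coe.2 h)
  lift q to ℚ≥0 using (by exact_mod_cast a.2.trans h1.le : 0 ≤ q)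
  exact ⟨q, by exact_mod_cast h1, by exact_mod_cast h2⟩

lemma cont_btwn (f : M) {a b : ℝ≥0} (h : a < b) : ∃ t, a < t ∧ t < b ∧ ContinuousAt f.1 t := by
  obtain ⟨t, h1, h2⟩ := ((f.2.1.countable_not_continuousAt.image NNReal.toReal).dense_compl
    ℝ).inter_open_nonempty _ isOpen_Ioo (nonempty_Ioo.2 (NNReal.coe_lt_coe.2 h))
  lift t to ℝ≥0 using a.2.trans h1.1.le
  exact ⟨t, h1.1, h1.2, not_not.1 fun h => h2 ⟨t, h, rfl⟩⟩

lemma open_B {U : Set M} (hU : U ∈ B) : IsOpen U := by
  rcases hU with ⟨⟨q, a⟩, rfl⟩ | ⟨⟨q, a⟩, rfl⟩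
  · rintro f ⟨r, h1, h2⟩ u hu
    obtain ⟨t, t1, t2, t3⟩ := cont_btwn f (a := r) (b := q) (by exact_mod_cast h1)
    obtain ⟨r', r1, r2⟩ := rat_btwn t2
    filter_upwards [(hu t (zero_le.trans_lt t1) t3).eventually
      (gt_mem_nhds ((f.2.1 t1.le).trans_lt h2))] with n hn
    exact ⟨r', by exact_mod_cast r2, ((u n).2.1 r1.le).trans_lt hn⟩
  · rintro f ⟨r, h1, h2⟩ u hu
    obtain ⟨t, t1, t2, t3⟩ := cont_btwn f (a := q) (b := r) (by exact_mod_cast h1)
    obtain ⟨r', r1, r2⟩ := rat_btwn t1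
    filter_upwards [(hu t (zero_le.trans_lt t1) t3).eventually
      (lt_mem_nhds (h2.trans_le (f.2.1 t2.le)))] with n hn
    exact ⟨r', by exact_mod_cast r1, hn.trans_le ((u n).2.1 r2.le)⟩

lemma conv_of (u : ℕ → M) (f : M) (h : ∀ U ∈ B, f ∈ U → u ⁻¹' U ∈ atTop) : Conv u f := by
  intro t ht hc
  refine tendsto_order.2 ⟨fun a ha => ?_, fun a ha => ?_⟩
  · obtain ⟨b, b1, b2⟩ := exists_rat_btwn ha
    obtain ⟨v, v1, v2⟩ := (hc.eventually (lt_mem_nhds b2)).exists_gt
    obtain ⟨r, r1, r2⟩ := rat_btwn v1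
    obtain ⟨q, q1, q2⟩ := rat_btwn r1
    filter_upwards [h (Hi q b) (Or.inr ⟨(q, b), rfl⟩)
      ⟨r, by exact_mod_cast q2, v2.trans_le (f.2.1 r2.le)⟩] with n ⟨s, s1, s2⟩
    exact b1.trans (s2.trans_le ((u n).2.1 (q1.le.trans (by exact_mod_cast s1.le))))
  · obtain ⟨b, b1, b2⟩ := exists_rat_btwn ha
    obtain ⟨l, l1, l2⟩ := exists_Ioc_subset_of_mem_nhds (hc.eventually (gt_mem_nhds b1)) ⟨0, ht⟩
    obtain ⟨r, r1, r2⟩ := rat_btwn l1
    obtain ⟨q, q1, q2⟩ := rat_btwn r2
    filter_upwards [h (Lo q b) (Or.inl ⟨(q, b), rfl⟩)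
      ⟨r, by exact_mod_cast q1, l2 ⟨r1, r2.le⟩⟩] with n ⟨s, s1, s2⟩
    exact (((u n).2.1 (le_trans (by exact_mod_cast s1.le) q2.le)).trans_lt s2).trans b2

lemma B_count : B.Countable := (countable_range _).union (countable_range _)

lemma top_eq : (inferInstance : TopologicalSpace M) = TopologicalSpace.generateFrom B := by
  refine le_antisymm (le_generateFrom fun _ => open_B) fun U hU => ?_
  let τ : TopologicalSpace M := TopologicalSpace.generateFrom B
  have : @SecondCountableTopology M τ := @SecondCountableTopology.mk M τ ⟨B, B_count, rfl⟩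
  rw [← @isClosed_compl_iff M τ U]
  refine @IsSeqClosed.isClosed M τ _ _ fun u f hu hf hfU => ?_
  obtain ⟨n, hn⟩ := (hU f hfU u
    (conv_of u f (TopologicalSpace.tendsto_nhds_generateFrom_iff.1 hf))).exists
  exact hu n hn

instance : SecondCountableTopology M := ⟨B, B_count, top_eq⟩

instance : RegularSpace M := by
  rw [regularSpace_generateFrom top_eq]
  have key : ∀ {t U V : Set M} {f : M}, U ∈ B → V ∈ B → tᶜ ⊆ U → f ∈ V → Disjoint U V →
      Disjoint (𝓝ˢ tᶜ) (𝓝 f) := fun hU hV h1 h2 h3 =>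
    disjoint_of_disjoint_of_mem h3 ((open_B hU).mem_nhdsSet.2 h1) ((open_B hV).mem_nhds h2)
  rintro _ (⟨⟨q, a⟩, rfl⟩ | ⟨⟨q, a⟩, rfl⟩) f ⟨r, h1, h2⟩
  · obtain ⟨b, b1, b2⟩ := exists_rat_btwn h2
    obtain ⟨p, p1, p2⟩ := exists_between h1
    obtain ⟨s, s1, s2⟩ := exists_between p2
    refine key (Or.inr ⟨(p, b), rfl⟩) (Or.inl ⟨(p, b), rfl⟩)
      (fun g hg => ⟨s, s1, b2.trans_le (not_lt.1 fun h => hg ⟨s, s2, h⟩)⟩) ⟨r, p1, b1⟩
      (disjoint_left.2 fun g ⟨x, x1, x2⟩ ⟨y, y1, y2⟩ => ?_)
    exact lt_asymm x2 ((g.2.1 (by exact_mod_cast (y1.trans x1).le)).trans_lt y2)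
  · obtain ⟨b, b1, b2⟩ := exists_rat_btwn h2
    obtain ⟨p, p1, p2⟩ := exists_between h1
    obtain ⟨s, s1, s2⟩ := exists_between p1
    refine key (Or.inl ⟨(p, b), rfl⟩) (Or.inr ⟨(p, b), rfl⟩)
      (fun g hg => ⟨s, s2, (not_lt.1 fun h => hg ⟨s, s1, h⟩).trans_lt b1⟩) ⟨r, p2, b2⟩
      (disjoint_left.2 fun g ⟨y, y1, y2⟩ ⟨x, x1, x2⟩ => ?_)
    exact lt_asymm x2 ((g.2.1 (by exact_mod_cast (y1.trans x1).le)).trans_lt y2)

lemma measurable_M {E : Type} [MeasurableSpace E] {G : E → M}
    (h : ∀ t, Measurable fun x => (G x).1 t) : Measurable G := by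
  have : Measurable[_, MeasurableSpace.generateFrom B] G := by
    refine measurable_generateFrom ?_
    rintro _ (⟨⟨q, a⟩, rfl⟩ | ⟨⟨q, a⟩, rfl⟩)
    · exact measurableSet_setOfPred.2 (Measurable.exists fun r =>
        measurable_const.and (measurableSet_setOfPred.1 (measurableSet_lt (h r) measurable_const)))
    · exact measurableSet_setOfPred.2 (Measurable.exists fun r =>
        measurable_const.and (measurableSet_setOfPred.1 (measurableSet_lt measurable_const (h r))))
  rwa [← borel_eq_generateFrom_of_subbasis top_eq] at this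

lemma tendsto_M {l : Filter ℕ} {u : ℕ → M} {f : M}
    (h : ∀ t, Tendsto (fun n => (u n).1 t) l (𝓝 (f.1 t))) : Tendsto u l (𝓝 f) := by
  have : Tendsto u l (@nhds M (TopologicalSpace.generateFrom B) f) := by
    rw [TopologicalSpace.tendsto_nhds_generateFrom_iff]
    rintro _ (⟨⟨q, a⟩, rfl⟩ | ⟨⟨q, a⟩, rfl⟩) ⟨r, h1, h2⟩
    · exact ((h r).eventually (gt_mem_nhds h2)).mono fun n hn => ⟨r, h1, hn⟩
    · exact ((h r).eventually (lt_mem_nhds h2)).mono fun n hn => ⟨r, h1, hn⟩
  rwa [← top_eq] at this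

end topology

section ultra
open Pool.Agent.Lib.helper33.Loeb

variable {S : ℕ → Type}

instance st (S : ℕ → Type) : Setoid (UP S) :=
  ⟨fun x y => ∀ᶠ n in UF, x n = y n, fun _ => Eventually.of_forall fun _ => rfl,
    fun h => h.mono fun _ => Eq.symm, fun h1 h2 => (h1.and h2).mono fun _ h => h.1.trans h.2⟩

def E (S : ℕ → Type) : Type := Quotient (st S)
noncomputable def out (x : E S) : UP S := Quotient.out x
def mk (y : UP S) : E S := Quotient.mk _ y
lemma out_mk (y : UP S) : ∀ᶠ n in UF, out (mk y) n = y n := Quotient.mk_out (s := st S) y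
lemma mem_int (y : UP S) (A : ∀ n, Set (S n)) : out (mk y) ∈ int A ↔ y ∈ int A :=
  eventually_congr ((out_mk y).mono fun n hn => by rw [hn])

variable [mS : ∀ n, MeasurableSpace (S n)]

def IE (S : ℕ → Type) [mS : ∀ n, MeasurableSpace (S n)] : Set (Set (E S)) :=
  preimage out '' II mS

instance : MeasurableSpace (E S) := MeasurableSpace.generateFrom (IE S)

lemma ringE : IsSetRing (IE S) where
  empty_mem := ⟨∅, (ring mS).empty_mem, rfl⟩
  union_mem := by
    rintro _ _ ⟨A, hA, rfl⟩ ⟨B, hB, rfl⟩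
    exact ⟨_, (ring mS).union_mem hA hB, rfl⟩
  sdiff_mem := by
    rintro _ _ ⟨A, hA, rfl⟩ ⟨B, hB, rfl⟩
    exact ⟨_, (ring mS).sdiff_mem hA hB, rfl⟩

lemma measE {A : ∀ n, Set (S n)} (hA : ∀ n, MeasurableSet (A n)) :
    MeasurableSet (out ⁻¹' int A) :=
  MeasurableSpace.measurableSet_generateFrom ⟨_, ⟨A, hA, rfl⟩, rfl⟩

lemma meas_out : Measurable (out (S := S)) :=
  measurable_generateFrom fun _ h => MeasurableSpace.measurableSet_generateFrom ⟨_, h, rfl⟩

lemma extE {μ ν : Measure (E S)} [IsFiniteMeasure μ] (h : ∀ A : ∀ n, Set (S n),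
    (∀ n, MeasurableSet (A n)) → μ (out ⁻¹' int A) = ν (out ⁻¹' int A)) : μ = ν :=
  ext_of_generate_finite (IE S) rfl (fun _ hs _ ht _ => ringE.inter_mem hs ht)
    (by rintro _ ⟨_, ⟨A, hA, rfl⟩, rfl⟩; exact h A hA)
    (by simpa only [int_univ, preimage_univ] using h (fun _ => univ) fun _ => .univ)

lemma meas_mk : Measurable (mk (S := S)) := measurable_generateFrom (by
  rintro _ ⟨_, ⟨A, hA, rfl⟩, rfl⟩
  rw [show mk ⁻¹' (out ⁻¹' int A) = int A from Set.ext fun y => mem_int y A]
  exact meas_int hA)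

instance [∀ n, MeasurableSingletonClass (S n)] : MeasurableSingletonClass (E S) := ⟨fun x => by
  have : ({x} : Set (E S)) = out ⁻¹' int fun n => {out x n} := Set.ext fun y =>
    ⟨fun h => Eventually.of_forall fun n => by rw [h]; rfl,
      fun h => (Quotient.out_equiv_out (s := st S)).1 h⟩
  rw [this]
  exact measE fun n => measurableSet_singleton _⟩

def lift (ω : UP fun n => ℝ≥0 → S n) (t : ℝ≥0) : E S := mk fun n => ω n t

omit mS in
lemma lift_pre (t : ℝ≥0) (A : ∀ n, Set (S n)) : lift ⁻¹' {ω | ω t ∈ out ⁻¹' int A} =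
    int fun n => {ω : ℝ≥0 → S n | ω t ∈ A n} := Set.ext fun _ => mem_int _ A

lemma meas_lift_past (s : ℝ≥0) :
    Measurable[MeasurableSpace.generateFrom (II fun n => past (S n) s), past (E S) s] lift := by
  refine Measurable.of_comap_le ?_
  simp only [past, MeasurableSpace.comap_iSup, MeasurableSpace.comap_comp]
  refine iSup₂_le fun r hr => Measurable.comap_le (@measurable_generateFrom _ _
    (MeasurableSpace.generateFrom (II fun n => past (S n) s)) _ _ ?_)
  rintro _ ⟨_, ⟨A, hA, rfl⟩, rfl⟩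
  refine MeasurableSpace.measurableSet_generateFrom ⟨_, fun n => ?_, lift_pre r A⟩
  exact le_iSup₂ (f := fun r (_ : r ≤ s) => MeasurableSpace.comap (fun ω : ℝ≥0 → S n => ω r) (mS n))
    r hr _ ⟨A n, hA n, rfl⟩

lemma past_le (X : Type) [MeasurableSpace X] (s : ℝ≥0) : past X s ≤ MeasurableSpace.pi :=
  iSup₂_le fun r _ => (measurable_pi_apply r).comap_le

lemma II_le (s : ℝ≥0) : MeasurableSpace.generateFrom (II fun n => past (S n) s) ≤
    (inferInstance : MeasurableSpace (UP fun n => ℝ≥0 → S n)) :=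
  MeasurableSpace.generateFrom_mono fun _ ⟨A, hA, e⟩ => ⟨A, fun n => past_le _ s _ (hA n), e⟩

lemma meas_lift : Measurable (lift (S := S)) := measurable_pi_lambda _ fun t =>
  measurable_generateFrom (by
    rintro _ ⟨_, ⟨A, hA, rfl⟩, rfl⟩
    exact MeasurableSpace.measurableSet_generateFrom
      ⟨_, fun n => measurable_pi_apply t (hA n), lift_pre t A⟩)

lemma cyl {X : Type} [MeasurableSpace X] (t : ℝ≥0) {C : Set X} (hC : MeasurableSet C) :
    MeasurableSet {ω : ℝ≥0 → X | ω t ∈ C} := measurable_pi_apply t hC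

theorem exists_limit (X : ∀ n, MarkovProcess (S n)) : ∃ (Y : MarkovProcess (E S))
    (L : Measure (UP S)), IsLoeb (fun n => (X n).π) L ∧ Y.π = L.map mk ∧
      ∀ x t (A : ∀ n, Set (S n)), (∀ n, MeasurableSet (A n)) →
        Tendsto (fun n => (X n).P (out x n) {ω | ω t ∈ A n}) UF
          (𝓝 (Y.P x {ω | ω t ∈ out ⁻¹' int A})) := by
  have := fun n => (X n).prob
  have := fun n => (X n).prob_π
  obtain ⟨L, hL⟩ := exists_loeb fun n => (X n).π
  choose Λ hΛ using fun y : UP S => exists_loeb fun n => (X n).P (y n)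
  have := hL.1
  have := fun y => (hΛ y).1
  have mΛ : Measurable Λ := Measurable.measure_of_isPiSystem_of_isProbabilityMeasure rfl (pi _) (by
    rintro _ ⟨A, hA, rfl⟩
    exact meas_lim (fun n => (X n).P.measurable_coe (hA n)) fun y => (hΛ y).2 A hA)
  let P : Kernel (E S) (ℝ≥0 → E S) := ⟨fun x => (Λ (out x)).map lift,
    (Measure.measurable_map _ meas_lift).comp (mΛ.comp meas_out)⟩
  have pP : ∀ x, IsProbabilityMeasure (P x) := fun x =>
    Measure.isProbabilityMeasure_map meas_lift.aemeasurable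
  have hP : ∀ x t (A : ∀ n, Set (S n)), (∀ n, MeasurableSet (A n)) →
      Tendsto (fun n => (X n).P (out x n) {ω | ω t ∈ A n}) UF
        (𝓝 (P x {ω | ω t ∈ out ⁻¹' int A})) := fun x t A hA => by
    change Tendsto _ _ (𝓝 ((Λ (out x)).map lift _))
    rw [Measure.map_apply meas_lift (cyl t (measE hA)), lift_pre]
    exact (hΛ _).2 _ fun n => cyl t (hA n)
  have hP' : ∀ (y : UP S) t (A : ∀ n, Set (S n)), (∀ n, MeasurableSet (A n)) →
      Tendsto (fun n => (X n).P (y n) {ω | ω t ∈ A n}) UF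
        (𝓝 (P (mk y) {ω | ω t ∈ out ⁻¹' int A})) := fun y t A hA =>
    (hP _ t A hA).congr' ((out_mk y).mono fun n hn => by simp only [hn])
  let κ : ℝ≥0 → Kernel (E S) (E S) := fun t => P.map fun ω => ω t
  have hκ : ∀ t x C, MeasurableSet C → κ t x C = P x {ω | ω t ∈ C} := fun t x C hC =>
    Kernel.map_apply' _ (measurable_pi_apply t) _ hC
  refine ⟨⟨P, pP, fun x => extE fun A hA => ?_, fun x s t A C hA hC => ?_, L.map mk,
    Measure.isProbabilityMeasure_map meas_mk.aemeasurable, fun t C hC => ?_⟩, L, hL, rfl, hP⟩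
  · rw [Measure.map_apply (measurable_pi_apply (0 : ℝ≥0)) (measE hA), Measure.dirac_apply' _ (measE hA)]
    refine tendsto_nhds_unique (hP x 0 A hA) (tendsto_const_nhds.congr' ?_)
    filter_upwards [ind_lim A (out x) (1 : ℝ≥0∞)] with n hn
    have := congrArg (fun μ : Measure (S n) => μ (A n)) ((X n).start (out x n))
    have m0 : Measurable fun ω : ℝ≥0 → S n => ω 0 := measurable_pi_apply _
    simp only [Measure.map_apply m0 (hA n), Measure.dirac_apply' _ (hA n)] at this
    exact (hn.symm.trans this.symm :)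
  · have hA' := past_le _ s _ hA
    have m0 : Measurable fun ω : ℝ≥0 → E S => ω (s + t) := measurable_pi_apply _
    have m1 : Measurable fun ω : ℝ≥0 → E S => κ t (ω s) :=
      (κ t).measurable.comp (measurable_pi_apply s)
    have : ((P x).restrict A).map (fun ω => ω (s + t)) =
        ((P x).restrict A).bind fun ω => κ t (ω s) := extE fun C hC => by
      have m2 : Measurable fun ω : ℝ≥0 → E S => κ t (ω s) (out ⁻¹' int C) :=
        ((κ t).measurable_coe (measE hC)).comp (measurable_pi_apply s)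
      rw [Measure.map_apply m0 (measE hC),
        Measure.bind_apply (measE hC) m1.aemeasurable,
        Measure.restrict_apply (m0 (measE hC))]
      change (Λ (out x)).map lift _ = ∫⁻ ω in A, _ ∂(Λ (out x)).map lift
      rw [Measure.map_apply meas_lift ((m0 (measE hC)).inter hA'),
        setLIntegral_map hA' m2 meas_lift, preimage_inter, inter_comm,
        ← Measure.restrict_apply (meas_lift hA'), ← withDensity_apply _ (meas_lift hA')]
      have key : ∀ D ∈ II fun n => past (S n) s,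
          (Λ (out x)).restrict (lift ⁻¹' ((fun ω => ω (s + t)) ⁻¹' (out ⁻¹' int C))) D =
          (Λ (out x)).withDensity (fun y => κ t (lift y s) (out ⁻¹' int C)) D := by
        rintro _ ⟨D, hD, rfl⟩
        have hD' := fun n => past_le _ s _ (hD n)
        rw [Measure.restrict_apply (meas_int hD'), withDensity_apply _ (meas_int hD'),
          ← lintegral_indicator (meas_int hD')]
        erw [lift_pre]
        rw [← int_inter]
        refine tendsto_nhds_unique ((hΛ _).2 _ fun n => (hD' n).inter (cyl _ (hC n))) ?_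
        simp only [fun n => (X n).markov (out x n) s t _ _ (hD n) (hC n),
          ← fun n => lintegral_indicator (μ := (X n).P (out x n)) (hD' n)]
        refine lintegral_lim (hΛ _) (fun n => (((X n).P.measurable_coe (cyl t (hC n))).comp
          (measurable_pi_apply s)).indicator (hD' n)) 1
          (fun n y => (indicator_le_self _ _ y).trans prob_le_one) fun y => ?_
        by_cases hy : y ∈ int D
        · rw [indicator_of_mem hy, hκ _ _ _ (measE hC)]
          exact (hP' (fun n => y n s) t C hC).congr' (Filter.Eventually.mono hy fun n hn =>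
            (indicator_of_mem hn _).symm)
        · rw [indicator_of_notMem hy]
          exact tendsto_const_nhds.congr' ((Ultrafilter.eventually_not.2 hy).mono fun n hn =>
            (indicator_of_notMem hn _).symm)
      exact ext_on_measurableSpace_of_generate_finite _ _ key (II_le s) rfl (pi _)
        (key _ (univ_mem _)) (meas_lift_past s hA)
    have := congrArg (fun μ : Measure (E S) => μ C) this
    simp only [Measure.map_apply m0 hC, Measure.bind_apply hC m1.aemeasurable,
      Measure.restrict_apply (m0 hC), hκ _ _ _ hC] at this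
    rw [inter_comm]
    exact this
  · have := Measure.isProbabilityMeasure_map (μ := L) (meas_mk (S := S)).aemeasurable
    have : L.map mk = (L.map mk).bind (κ t) := extE fun A hA => by
      rw [Measure.bind_apply (measE hA) (κ t).measurable.aemeasurable,
        lintegral_map ((κ t).measurable_coe (measE hA)) meas_mk,
        Measure.map_apply meas_mk (measE hA),
        show mk ⁻¹' (out ⁻¹' int A) = int A from Set.ext fun y => mem_int y A]
      refine tendsto_nhds_unique (hL.2 A hA) ?_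
      simp only [fun n => ((X n).stationary t _ (hA n)).symm, hκ _ _ _ (measE hA)]
      exact lintegral_lim hL (fun n => (X n).P.measurable_coe (cyl t (hA n))) 1
        (fun n y => prob_le_one) fun y => hP' y t A hA
    conv_rhs => rw [this, Measure.bind_apply hC (κ t).measurable.aemeasurable]
    simp only [hκ _ _ _ hC]

lemma real_le {X Z : Type} [MeasurableSpace X] [MeasurableSpace Z] (μ : Measure X) (ν : Measure Z)
    [IsProbabilityMeasure μ] [IsProbabilityMeasure ν] (A : Set X) (B : Set Z) : |μ.real A - ν.real B| ≤ 1 := by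
  have := measureReal_le_one (μ := μ) (s := A)
  have := measureReal_le_one (μ := ν) (s := B)
  have := measureReal_nonneg (μ := μ) (s := A)
  have := measureReal_nonneg (μ := ν) (s := B)
  rw [abs_le]
  constructor <;> linarith

lemma bdd {X : Type} [MeasurableSpace X] (Y : MarkovProcess X) (x : X) (t : ℝ≥0) :
    BddAbove (range fun C : {C : Set X // MeasurableSet C} =>
      |(Y.P x).real {ω | ω t ∈ C.1} - Y.π.real C.1|) := by
  have := Y.prob
  have := Y.prob_π
  exact ⟨1, by rintro _ ⟨C, rfl⟩; exact real_le (Y.P x) Y.π _ _⟩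

lemma d_lim (X : ∀ n, MarkovProcess (S n)) (Y : MarkovProcess (E S)) (x : E S) (t : ℝ≥0)
    (h1 : ∀ A : ∀ n, Set (S n), (∀ n, MeasurableSet (A n)) →
      Tendsto (fun n => (X n).π (A n)) UF (𝓝 (Y.π (out ⁻¹' int A))))
    (h2 : ∀ A : ∀ n, Set (S n), (∀ n, MeasurableSet (A n)) →
      Tendsto (fun n => (X n).P (out x n) {ω | ω t ∈ A n}) UF
        (𝓝 (Y.P x {ω | ω t ∈ out ⁻¹' int A}))) :
    Tendsto (fun n => (X n).d (out x n) t) UF (𝓝 (Y.d x t)) := by
  have := Y.prob
  have := Y.prob_π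
  have h : ∀ A : ∀ n, Set (S n), (∀ n, MeasurableSet (A n)) → Tendsto
      (fun n => |((X n).P (out x n)).real {ω | ω t ∈ A n} - (X n).π.real (A n)|) UF
      (𝓝 |(Y.P x).real {ω | ω t ∈ out ⁻¹' int A} - Y.π.real (out ⁻¹' int A)|) := fun A hA =>
    (((ENNReal.tendsto_toReal (measure_ne_top _ _)).comp (h2 A hA)).sub
      ((ENNReal.tendsto_toReal (measure_ne_top _ _)).comp (h1 A hA))).abs
  refine tendsto_order.2 ⟨fun a ha => ?_, fun a ha => ?_⟩
  · obtain ⟨⟨C, hC⟩, h3⟩ := exists_lt_of_lt_ciSup ha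
    let μ := (Y.P x).map fun ω => ω t
    have : IsProbabilityMeasure μ :=
      Measure.isProbabilityMeasure_map (measurable_pi_apply t).aemeasurable
    have e : ∀ D, MeasurableSet D → (Y.P x).real {ω | ω t ∈ D} = μ.real D := fun D hD =>
      (map_measureReal_apply (measurable_pi_apply t) hD).symm
    obtain ⟨_, ⟨_, ⟨A, hA, rfl⟩, rfl⟩, h4⟩ := exists_measure_symmDiff_lt_of_generateFrom_isSetRing
      (μ := μ + Y.π) ringE ⟨{univ}, countable_singleton _,
        singleton_subset_iff.2 ⟨univ, univ_mem _, rfl⟩, by simp⟩ rfl hC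
      (ENNReal.ofReal_pos.2 (sub_pos.2 h3))
    rw [← ofReal_measureReal (measure_ne_top _ _), ENNReal.ofReal_lt_ofReal_iff (sub_pos.2 h3),
      measureReal_add_apply] at h4
    have a1 := abs_le.1 (abs_measureReal_sub_le_measureReal_symmDiff (μ := μ)
      (measE hA).nullMeasurableSet hC.nullMeasurableSet)
    have a2 := abs_le.1 (abs_measureReal_sub_le_measureReal_symmDiff (μ := Y.π)
      (measE hA).nullMeasurableSet hC.nullMeasurableSet)
    have a3 : a < |(Y.P x).real {ω | ω t ∈ out ⁻¹' int A} - Y.π.real (out ⁻¹' int A)| := by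
      rw [e _ (measE hA)]
      simp only [e _ hC] at h4
      have b1 := le_abs_self (μ.real (out ⁻¹' int A) - Y.π.real (out ⁻¹' int A))
      have b2 := neg_abs_le (μ.real (out ⁻¹' int A) - Y.π.real (out ⁻¹' int A))
      rcases abs_cases (μ.real C - Y.π.real C) with b | b <;> linarith [a1.1, a1.2, a2.1, a2.2, b.1]
    filter_upwards [(h A hA).eventually (lt_mem_nhds a3)] with n hn
    exact hn.trans_le (le_ciSup (bdd (X n) _ t) ⟨A n, hA n⟩)
  · obtain ⟨b, b1, b2⟩ := exists_between ha
    by_contra hn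
    have hn := Ultrafilter.eventually_not.2 hn
    have : ∀ n, ∃ C : {C : Set (S n) // MeasurableSet C}, ¬ (X n).d (out x n) t < a →
        b < |((X n).P (out x n)).real {ω | ω t ∈ C.1} - (X n).π.real C.1| := fun n => by
      by_cases h : (X n).d (out x n) t < a
      · exact ⟨⟨∅, .empty⟩, fun h' => absurd h h'⟩
      · exact (exists_lt_of_lt_ciSup (b2.trans_le (not_lt.1 h))).imp fun _ hC _ => hC
    choose A hA using this
    have := ge_of_tendsto (h (fun n => (A n).1) fun n => (A n).2) (hn.mono fun n hn => (hA n hn).le)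
    exact (this.trans (le_ciSup (bdd Y x t) ⟨_, measE fun n => (A n).2⟩)).not_gt b1

end ultra

open Pool.Agent.Lib.helper33.Loeb in
/-- Every subsequential weak limit of the stationary distance profiles of finite-state Markov
processes is the stationary distance profile of a Markov process on a measurable space. -/
theorem result (k : ℕ → ℕ) (X : ∀ n, MarkovProcess (Fin (k n))) (F : ∀ n, Fin (k n) → M)
    (hF : ∀ n x t, (F n x).1 t = (X n).d x t)
    (law : ℕ → ProbabilityMeasure M) (hlaw : ∀ n, (law n : Measure M) = (X n).π.map (F n))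
    (φ : ℕ → ℕ) (_hφ : StrictMono φ) (ν : ProbabilityMeasure M)
    (h : Tendsto (fun n => law (φ n)) atTop (𝓝 ν)) :
    ∃ (E : Type) (_ : MeasurableSpace E) (_ : MeasurableSingletonClass E) (Y : MarkovProcess E)
      (G : E → M), (∀ x t, (G x).1 t = Y.d x t) ∧ Measurable G ∧ Y.π.map G = ν := by
  obtain ⟨Y, L, hL, hπ, hP⟩ := exists_limit fun n => X (φ n)
  have := Y.prob_π
  have := fun n => (X n).prob_π
  have hd : ∀ x t, Tendsto (fun n => (F (φ n) (out x n)).1 t) UF (𝓝 (Y.d x t)) := fun x t => by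
    simp only [hF]
    refine d_lim _ Y x t (fun A hA => ?_) (hP x t)
    rw [hπ, Measure.map_apply meas_mk (measE hA),
      show mk ⁻¹' (out ⁻¹' int A) = int A from Set.ext fun y => mem_int y A]
    exact hL.2 A hA
  let G : E (fun n => Fin (k (φ n))) → M := fun x => ⟨Y.d x, fun s t hst =>
    le_of_tendsto_of_tendsto' (hd x t) (hd x s) fun n => (F _ _).2.1 hst, fun t =>
    isClosed_Icc.mem_of_tendsto (hd x t) (Eventually.of_forall fun n => (F _ _).2.2 t)⟩
  have hd' : ∀ (y : UP fun n => Fin (k (φ n))) t,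
      Tendsto (fun n => (F (φ n) (y n)).1 t) UF (𝓝 ((G (mk y)).1 t)) := fun y t =>
    (hd _ t).congr' ((out_mk y).mono fun n hn => by simp only [hn])
  have mG : Measurable G := measurable_M fun t => by
    have := (meas_lim (g := fun n y => ENNReal.ofReal ((F (φ n) y).1 t))
      (fun n => measurable_of_finite _) fun y => ENNReal.tendsto_ofReal (hd' y t)).comp meas_out
    have e : (fun x => (G x).1 t) = fun x => (ENNReal.ofReal ((G (mk (out x))).1 t)).toReal :=
      funext fun x => by rw [ENNReal.toReal_ofReal ((G _).2.2 t).1, show mk (out x) = x from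
        Quotient.out_eq x]
    rw [e]
    exact this.ennreal_toReal
  refine ⟨_, inferInstance, inferInstance, Y, G, fun _ _ => rfl, mG,
    ext_of_forall_lintegral_eq_of_IsFiniteMeasure fun f => ?_⟩
  have mf : Measurable fun g : M => (f g : ℝ≥0∞) := f.continuous.measurable.coe_nnreal_ennreal
  refine tendsto_nhds_unique ?_
    ((ProbabilityMeasure.tendsto_iff_forall_lintegral_tendsto.1 h f).mono_left UF_le)
  simp only [hlaw, fun n => lintegral_map (μ := (X n).π) mf (measurable_of_finite (F n))]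
  rw [lintegral_map mf mG, hπ, lintegral_map (f := fun x => (f (G x) : ℝ≥0∞)) (mf.comp mG) meas_mk]
  exact lintegral_lim hL (fun n => measurable_of_finite _) (nndist f 0)
    (fun n y => ENNReal.coe_le_coe.2 (BoundedContinuousFunction.NNReal.upper_bound f _))
    fun y => ENNReal.tendsto_coe.2 ((f.continuous.tendsto _).comp (tendsto_M (hd' y)))

end Pool.Agent.Results.MP_5090e2_pr.LimitProcess
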